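import Pool.Agent.V8H93.QI.Gen
import Pool.Agent.V8H93.QI.Abl

/-!
# Regulator maps with the action of a finite group
-/

set_option autoImplicit false
set_option linter.unusedSectionVars false
set_option linter.style.haveILetI false

open scoped TensorProduct

namespace Pool.Agent.V8H93.KC

open Pool.Agent.V8H93.QI (HasFixed PQ Weyl CommWith)

variable {G : Type} [Group G] [Finite G] {V : Type} [AddCommGroup V] [Module ℚ V]
  {W : Type} [AddCommGroup W] [Module ℝ W] [Module ℚ W] [IsScalarTower ℚ ℝ W]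

/-- the vectors of `V` fixed by `H` -/
def fixV (ρ : Representation ℚ G V) (H : Subgroup G) : Submodule ℚ V where
  carrier := {v | ∀ h ∈ H, ρ h v = v}
  add_mem' := fun ha hb h hh => by rw [map_add, ha h hh, hb h hh]
  zero_mem' := fun h _ => map_zero _
  smul_mem' := fun c _ ha h hh => by rw [map_smul, ha h hh]

/-- the vectors of `W` fixed by `H` -/
def fixW (σ : Representation ℝ G W) (H : Subgroup G) : Submodule ℝ W where
  carrier := {v | ∀ h ∈ H, σ h v = v}
  add_mem' := fun ha hb h hh => by rw [map_add, ha h hh, hb h hh]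
  zero_mem' := fun h _ => map_zero _
  smul_mem' := fun c _ ha h hh => by rw [map_smul, ha h hh]

/-- the map `ℝ ⊗ V → W` -/
noncomputable def RR (r : V →ₗ[ℚ] W) : ℝ ⊗[ℚ] V →ₗ[ℝ] W := LinearMap.liftBaseChange ℝ r

/-- the map `ℝ ⊗ V^H → W` -/
noncomputable def RH (ρ : Representation ℚ G V) (r : V →ₗ[ℚ] W) (H : Subgroup G) :
    ℝ ⊗[ℚ] (fixV ρ H) →ₗ[ℝ] W := LinearMap.liftBaseChange ℝ (r ∘ₗ (fixV ρ H).subtype)

/-- `ℝ ⊗ V^H → W^H` is an isomorphism -/
def Iso (ρ : Representation ℚ G V) (σ : Representation ℝ G W) (r : V →ₗ[ℚ] W)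
    (H : Subgroup G) : Prop :=
  Function.Injective (RH ρ r H) ∧ LinearMap.range (RH ρ r H) = fixW σ H

section

variable (ρ : Representation ℚ G V) (σ : Representation ℝ G W) (r : V →ₗ[ℚ] W)

open Classical in
/-- the mean over `H` -/
noncomputable def avV (H : Subgroup G) : V →ₗ[ℚ] V :=
  letI := Fintype.ofFinite H
  (Nat.card H : ℚ)⁻¹ • ∑ h : H, ρ h

lemma avV_mem (H : Subgroup G) (v : V) : avV ρ H v ∈ fixV ρ H := by
  classical
  letI := Fintype.ofFinite H
  intro h hh
  unfold avV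
  rw [LinearMap.smul_apply, map_smul, LinearMap.sum_apply, map_sum,
    ← Equiv.sum_comp (Equiv.mulLeft (⟨h, hh⟩ : H)) (fun k : H => ρ k v)]
  congr 1
  refine Finset.sum_congr rfl fun k _ => ?_
  rw [← Module.End.mul_apply, ← map_mul]
  rfl

lemma avV_fix (H : Subgroup G) {v : V} (hv : v ∈ fixV ρ H) : avV ρ H v = v := by
  classical
  letI := Fintype.ofFinite H
  unfold avV
  rw [LinearMap.smul_apply, LinearMap.sum_apply,
    Finset.sum_congr rfl fun (k : H) _ => hv k k.2, Finset.sum_const, Finset.card_univ,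
    ← Nat.card_eq_fintype_card, ← Nat.cast_smul_eq_nsmul ℚ, smul_smul,
    inv_mul_cancel₀ (by exact_mod_cast Nat.card_pos.ne'), one_smul]

/-- the mean as a map to the fixed vectors -/
noncomputable def avV' (H : Subgroup G) : V →ₗ[ℚ] fixV ρ H :=
  (avV ρ H).codRestrict (fixV ρ H) (avV_mem ρ H)

lemma avV'_sub (H : Subgroup G) : (avV' ρ H) ∘ₗ (fixV ρ H).subtype = LinearMap.id := by
  ext v
  exact avV_fix ρ H v.2

lemma RH_eq (H : Subgroup G) (y : ℝ ⊗[ℚ] (fixV ρ H)) :
    RH ρ r H y = RR r ((fixV ρ H).subtype.baseChange ℝ y) := by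
  unfold RH RR
  induction y using TensorProduct.induction_on with
  | zero => simp
  | tmul c v => simp
  | add a b ha hb => rw [map_add, map_add, map_add, ha, hb]

lemma RR_equiv (hr : ∀ g v, r (ρ g v) = σ g (r v)) (g : G) (x : ℝ ⊗[ℚ] V) :
    RR r ((ρ g).baseChange ℝ x) = σ g (RR r x) := by
  unfold RR
  induction x using TensorProduct.induction_on with
  | zero => simp
  | tmul c v => simp [hr]
  | add a b ha hb => rw [map_add, map_add, map_add, map_add, ha, hb]

/-- `G` acts on `ℝ ⊗ V` -/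
noncomputable def actT : Representation ℚ G (ℝ ⊗[ℚ] V) where
  toFun g := ((ρ g).baseChange ℝ).restrictScalars ℚ
  map_one' := by
    ext x
    simp
  map_mul' g h := by
    ext x
    simp

lemma actT_apply (g : G) (x : ℝ ⊗[ℚ] V) : actT ρ g x = (ρ g).baseChange ℝ x := rfl

lemma av_base (H : Subgroup G) {x : ℝ ⊗[ℚ] V} (hx : ∀ h ∈ H, (ρ h).baseChange ℝ x = x) :
    (avV ρ H).baseChange ℝ x = x := by
  classical
  letI := Fintype.ofFinite H
  have h1 : (avV ρ H).baseChange ℝ x =
      (Nat.card H : ℚ)⁻¹ • ∑ h : H, (ρ h).baseChange ℝ x := by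
    have h2 := map_sum (LinearMap.baseChangeHom ℚ ℝ V V) (fun h : H => ρ h) Finset.univ
    have h3 : (∑ h : H, ρ h).baseChange ℝ = ∑ h : H, (ρ h).baseChange ℝ := h2
    unfold avV
    rw [LinearMap.baseChange_smul, h3, LinearMap.smul_apply, LinearMap.sum_apply]
  rw [h1, Finset.sum_congr rfl fun (k : H) _ => hx k k.2, Finset.sum_const, Finset.card_univ,
    ← Nat.card_eq_fintype_card, ← Nat.cast_smul_eq_nsmul ℚ, smul_smul,
    inv_mul_cancel₀ (by exact_mod_cast Nat.card_pos.ne'), one_smul]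

/-- the mean over `H` in `W` -/
noncomputable def avW (H : Subgroup G) : W →ₗ[ℝ] W :=
  letI := Fintype.ofFinite H
  (Nat.card H : ℝ)⁻¹ • ∑ h : H, σ h

lemma avW_mem (H : Subgroup G) (v : W) : avW σ H v ∈ fixW σ H := by
  classical
  letI := Fintype.ofFinite H
  intro h hh
  unfold avW
  rw [LinearMap.smul_apply, map_smul, LinearMap.sum_apply, map_sum,
    ← Equiv.sum_comp (Equiv.mulLeft (⟨h, hh⟩ : H)) (fun k : H => σ k v)]
  congr 1
  refine Finset.sum_congr rfl fun k _ => ?_
  rw [← Module.End.mul_apply, ← map_mul]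
  rfl

lemma avW_sub (H : Subgroup G) (S : Submodule ℝ W) {v : W} (hv : ∀ h ∈ H, σ h v - v ∈ S) :
    avW σ H v - v ∈ S := by
  classical
  letI := Fintype.ofFinite H
  have h0 : (Nat.card H : ℝ) ≠ 0 := by exact_mod_cast Nat.card_pos.ne'
  have h1 : avW σ H v - v = (Nat.card H : ℝ)⁻¹ • ∑ h : H, (σ h v - v) := by
    unfold avW
    rw [LinearMap.smul_apply, LinearMap.sum_apply, Finset.sum_sub_distrib, smul_sub,
      Finset.sum_const, Finset.card_univ, ← Nat.card_eq_fintype_card, ← Nat.cast_smul_eq_nsmul ℝ,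
      smul_smul, inv_mul_cancel₀ h0, one_smul]
  rw [h1]
  exact S.smul_mem _ (S.sum_mem fun k _ => hv k k.2)

/-- the regulator map commutes with means -/
lemma RR_av (hr : ∀ g v, r (ρ g v) = σ g (r v)) (H : Subgroup G) (x : ℝ ⊗[ℚ] V) :
    RR r ((avV ρ H).baseChange ℝ x) = avW σ H (RR r x) := by
  classical
  letI := Fintype.ofFinite H
  have h2 := map_sum (LinearMap.baseChangeHom ℚ ℝ V V) (fun h : H => ρ h) Finset.univ
  have h3 : (∑ h : H, ρ h).baseChange ℝ = ∑ h : H, (ρ h).baseChange ℝ := h2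
  unfold avV avW
  rw [LinearMap.baseChange_smul, h3, LinearMap.smul_apply, LinearMap.sum_apply,
    LinearMap.smul_apply, LinearMap.sum_apply, map_rat_smul, map_sum,
    Finset.sum_congr rfl fun (k : H) _ => RR_equiv ρ σ r hr k x]
  rw [← Rat.cast_smul_eq_qsmul ℝ]
  push_cast
  rfl

theorem iso_of_bijective (hr : ∀ g v, r (ρ g v) = σ g (r v)) (h : Function.Bijective (RR r))
    (H : Subgroup G) : Iso ρ σ r H := by
  have h1 : ∀ y : ℝ ⊗[ℚ] (fixV ρ H), (avV' ρ H).baseChange ℝ
      ((fixV ρ H).subtype.baseChange ℝ y) = y := by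
    intro y
    rw [← LinearMap.comp_apply, ← LinearMap.baseChange_comp, avV'_sub, LinearMap.baseChange_id]
    rfl
  have h2 : ∀ x : ℝ ⊗[ℚ] V, (fixV ρ H).subtype.baseChange ℝ ((avV' ρ H).baseChange ℝ x) =
      (avV ρ H).baseChange ℝ x := by
    intro x
    rw [← LinearMap.comp_apply, ← LinearMap.baseChange_comp]
    rfl
  refine ⟨fun y z hyz => ?_, ?_⟩
  · rw [RH_eq, RH_eq] at hyz
    have h3 := h.1 hyz
    rw [← h1 y, h3, h1 z]
  · ext w
    constructor
    · rintro ⟨y, rfl⟩
      intro k hk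
      rw [RH_eq, ← RR_equiv ρ σ r hr]
      congr 1
      rw [← LinearMap.comp_apply, ← LinearMap.baseChange_comp]
      congr 2
      ext v
      exact v.2 k hk
    · intro hw
      obtain ⟨x, rfl⟩ := h.2 w
      refine ⟨(avV' ρ H).baseChange ℝ x, ?_⟩
      rw [RH_eq, h2, RR_av ρ σ r hr]
      have h4 := avW_sub σ H ⊥ (v := RR r x) (fun k hk => by
        rw [Submodule.mem_bot, sub_eq_zero]
        exact hw k hk)
      rwa [Submodule.mem_bot, sub_eq_zero] at h4

theorem bijective_of_iso (hr : ∀ g v, r (ρ g v) = σ g (r v)) {𝓗 : Set (Subgroup G)}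
    (hG : HasFixed G 𝓗) (h : ∀ H ∈ 𝓗, Iso ρ σ r H) : Function.Bijective (RR r) := by
  constructor
  · rw [← LinearMap.ker_eq_bot]
    by_contra hne
    -- the kernel is a representation
    have hst : ∀ (g : G), ∀ x ∈ LinearMap.ker (RR r), (ρ g).baseChange ℝ x ∈ LinearMap.ker (RR r) := by
      intro g x hx
      rw [LinearMap.mem_ker] at hx ⊢
      rw [RR_equiv ρ σ r hr, hx, map_zero]
    let π : Representation ℚ G (LinearMap.ker (RR r)) :=
      { toFun := fun g => (((ρ g).baseChange ℝ).restrict (hst g)).restrictScalars ℚ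
        map_one' := by
          ext x
          simp
        map_mul' := fun g k => by
          ext x
          simp only [map_mul, LinearMap.coe_restrictScalars, LinearMap.coe_restrict_apply,
            Module.End.mul_apply]
          rw [LinearMap.baseChange_mul]
          rfl }
    have hnt : Nontrivial (LinearMap.ker (RR r)) := by
      rwa [Submodule.nontrivial_iff_ne_bot]
    obtain ⟨H, hH, x, hx0, hx⟩ := hG _ π hnt
    have hx' : ∀ k ∈ H, (ρ k).baseChange ℝ (x : ℝ ⊗[ℚ] V) = x := fun k hk =>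
      congrArg Subtype.val (hx k hk)
    apply hx0
    have h1 := av_base ρ H hx'
    have h2 : (fixV ρ H).subtype.baseChange ℝ ((avV' ρ H).baseChange ℝ (x : ℝ ⊗[ℚ] V)) =
        (x : ℝ ⊗[ℚ] V) := by
      rw [← LinearMap.comp_apply, ← LinearMap.baseChange_comp]
      exact h1
    have h3 : RH ρ r H ((avV' ρ H).baseChange ℝ (x : ℝ ⊗[ℚ] V)) = 0 := by
      rw [RH_eq, h2]
      exact x.2
    have h4 := (h H hH).1 (h3.trans (map_zero _).symm)
    rw [h4, map_zero] at h2
    exact Subtype.ext h2.symm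
  · rw [← LinearMap.range_eq_top]
    by_contra hne
    have hst : ∀ (g : G), LinearMap.range (RR r) ≤ (LinearMap.range (RR r)).comap (σ g) := by
      rintro g _ ⟨x, rfl⟩
      exact ⟨(ρ g).baseChange ℝ x, RR_equiv ρ σ r hr g x⟩
    let π : Representation ℚ G (W ⧸ LinearMap.range (RR r)) :=
      { toFun := fun g => ((LinearMap.range (RR r)).mapQ (LinearMap.range (RR r)) (σ g)
          (hst g)).restrictScalars ℚ
        map_one' := by
          ext x
          obtain ⟨w, rfl⟩ := Submodule.Quotient.mk_surjective _ x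
          simp
        map_mul' := fun g k => by
          ext x
          obtain ⟨w, rfl⟩ := Submodule.Quotient.mk_surjective _ x
          simp }
    have hnt : Nontrivial (W ⧸ LinearMap.range (RR r)) := by
      rwa [Submodule.Quotient.nontrivial_iff]
    obtain ⟨H, hH, x, hx0, hx⟩ := hG _ π hnt
    obtain ⟨w, rfl⟩ := Submodule.Quotient.mk_surjective _ x
    apply hx0
    have h1 : ∀ k ∈ H, σ k w - w ∈ LinearMap.range (RR r) := fun k hk =>
      (Submodule.Quotient.eq _).1 (hx k hk)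
    have h2 := avW_sub σ H _ h1
    have h3 : avW σ H w ∈ LinearMap.range (RR r) := by
      have h4 := avW_mem σ H w
      rw [← (h H hH).2] at h4
      obtain ⟨y, hy⟩ := h4
      exact ⟨_, (RH_eq ρ r H y).symm.trans hy⟩
    rw [Submodule.Quotient.mk_eq_zero]
    have h5 := sub_mem h3 h2
    rwa [sub_sub_cancel] at h5

theorem main (hr : ∀ g v, r (ρ g v) = σ g (r v)) {𝓗 : Set (Subgroup G)}
    (hG : HasFixed G 𝓗) : Function.Bijective (RR r) ↔ ∀ H ∈ 𝓗, Iso ρ σ r H :=
  ⟨fun h H _ => iso_of_bijective ρ σ r hr h H, bijective_of_iso ρ σ r hr hG⟩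

end

/-- the criterion for the family of subgroups is sharp -/
theorem sharp {G : Type} [Group G] {𝓗 : Set (Subgroup G)} (hG : ¬ HasFixed G 𝓗) :
    ∃ (V : Type) (_ : AddCommGroup V) (_ : Module ℚ V) (ρ : Representation ℚ G V)
      (σ : Representation ℝ G PUnit) (r : V →ₗ[ℚ] PUnit), (∀ g v, r (ρ g v) = σ g (r v)) ∧
        (∀ H ∈ 𝓗, Iso ρ σ r H) ∧ ¬ Function.Bijective (RR r) := by
  unfold HasFixed at hG
  push Not at hG
  obtain ⟨V, _, _, ρ, hV, hfix⟩ := hG
  refine ⟨V, inferInstance, inferInstance, ρ, 1, 0, fun g v => rfl, fun H hH => ?_, fun hb => ?_⟩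
  · have h1 : ∀ v : fixV ρ H, v = 0 := by
      intro v
      by_contra hv
      obtain ⟨k, hk, hk'⟩ := hfix H hH v (fun h => hv (Subtype.ext h))
      exact hk' (v.2 k hk)
    have : Subsingleton (fixV ρ H) := ⟨fun a b => by rw [h1 a, h1 b]⟩
    refine ⟨fun x y _ => ?_, ?_⟩
    · have h2 : ∀ z : ℝ ⊗[ℚ] (fixV ρ H), z = 0 := by
        intro z
        induction z using TensorProduct.induction_on with
        | zero => rfl
        | tmul c v => rw [h1 v, TensorProduct.tmul_zero]
        | add a b ha hb => rw [ha, hb, add_zero]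
      rw [h2 x, h2 y]
    · ext w
      exact ⟨fun _ k _ => rfl, fun _ => ⟨0, rfl⟩⟩
  · obtain ⟨v, hv⟩ := exists_ne (0 : V)
    have h1 : (1 : ℝ) ⊗ₜ[ℚ] v = 0 := hb.1 rfl
    have h2 : ∃ f : Module.Dual ℚ V, f v ≠ 0 := by
      by_contra hcon
      push Not at hcon
      exact hv ((Module.forall_dual_apply_eq_zero_iff ℚ v).1 hcon)
    obtain ⟨f, hf⟩ := h2
    have h3 := congrArg (LinearMap.liftBaseChange ℝ ((Algebra.linearMap ℚ ℝ) ∘ₗ f)) h1
    rw [LinearMap.liftBaseChange_tmul, map_zero, one_smul] at h3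
    apply hf
    exact (map_eq_zero (algebraMap ℚ ℝ)).1 h3

end Pool.Agent.V8H93.KC
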