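import Pool.Agent.V8H93.BR.Fld

/-!
# Numbers up to rational factors attached to the fixed parts
-/

set_option autoImplicit false
set_option linter.unusedSectionVars false

open scoped Classical

namespace Pool.Agent.V8H93.KC

open Pool.Agent.V8H87.EB.Br (pc)
open Pool.Agent.V8H93.QI (Weyl)
open Pool.Agent.V8H93.BR

/-- equality of complex numbers up to a factor in `ℚ^*` -/
def Eqv (x y : ℂ) : Prop := ∃ q : ℚ, q ≠ 0 ∧ x = q * y

lemma Eqv.symm {x y : ℂ} (h : Eqv x y) : Eqv y x := by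
  obtain ⟨q, hq, h⟩ := h
  have hq' : (q : ℂ) ≠ 0 := by exact_mod_cast hq
  refine ⟨q⁻¹, inv_ne_zero hq, ?_⟩
  rw [h]
  push_cast
  field_simp

lemma Eqv.trans {x y z : ℂ} (h : Eqv x y) (h' : Eqv y z) : Eqv x z := by
  obtain ⟨q, hq, h⟩ := h
  obtain ⟨p, hp, h'⟩ := h'
  refine ⟨q * p, mul_ne_zero hq hp, ?_⟩
  rw [h, h']
  push_cast
  ring

lemma Eqv.mul {x y z w : ℂ} (h : Eqv x y) (h' : Eqv z w) : Eqv (x * z) (y * w) := by
  obtain ⟨q, hq, h⟩ := h
  obtain ⟨p, hp, h'⟩ := h'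
  refine ⟨q * p, mul_ne_zero hq hp, ?_⟩
  rw [h, h']
  push_cast
  ring

lemma Eqv.prod {I : Type} (s : Finset I) {f g : I → ℂ} (h : ∀ i ∈ s, Eqv (f i) (g i)) :
    Eqv (∏ i ∈ s, f i) (∏ i ∈ s, g i) := by
  induction s using Finset.induction_on with
  | empty => exact ⟨1, one_ne_zero, by simp⟩
  | insert a s ha ih =>
    rw [Finset.prod_insert ha, Finset.prod_insert ha]
    exact (h a (Finset.mem_insert_self _ _)).mul
      (ih fun i hi => h i (Finset.mem_insert_of_mem hi))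

lemma Eqv.cancel {x y z w : ℂ} (hz : z ≠ 0) (h : Eqv (x * z) (y * w)) (h' : Eqv z w) :
    Eqv x y := by
  obtain ⟨q, hq, h⟩ := h
  obtain ⟨p, hp, h'⟩ := h'
  have hp' : (p : ℂ) ≠ 0 := by exact_mod_cast hp
  have hw : w ≠ 0 := by
    rintro rfl
    rw [mul_zero] at h'
    exact hz h'
  refine ⟨q / p, div_ne_zero hq hp, ?_⟩
  rw [h'] at h
  have h1 : (x * p) * w = (q * y) * w := by linear_combination h
  have h2 := mul_right_cancel₀ hw h1
  push_cast
  field_simp
  linear_combination h2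

variable {G : Type} [Group G] [Fintype G]

/-- The nonzero numbers `f H`, `H ≤ G`, are multiplicative up to factors in `ℚ^*`: equal sums of
permutation characters give products which are equal up to a rational factor. -/
def MulQ (f : Subgroup G → ℂ) : Prop :=
  (∀ H, f H ≠ 0) ∧ ∀ (I J : Type) [Fintype I] [Fintype J] (U : I → Subgroup G)
    (U' : J → Subgroup G), (∀ g, ∑ i, pc (U i) g = ∑ j, pc (U' j) g) →
      Eqv (∏ i, f (U i)) (∏ j, f (U' j))

lemma eqv_of_mem {R L : Subgroup G → ℂ} (hR : MulQ R) (hL : MulQ L) {P : Subgroup G → Prop}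
    (hP : ∀ H, P H → Eqv (R H) (L H)) {U : Subgroup G}
    (hU : pc U ∈ AddSubgroup.closure {f | ∃ H : Subgroup G, P H ∧ f = pc H}) :
    Eqv (R U) (L U) := by
  obtain ⟨I, J, _, _, H, H', hH, hH', hid⟩ := families hU
  have hrel : ∀ d : Subgroup G → ℂ, MulQ d → Eqv (d U * ∏ i, d (H i)) (∏ j, d (H' j)) := by
    intro d hd
    have h1 := hd.2 (Option I) J (fun o => o.elim U H) H' (by
      intro g
      rw [Fintype.sum_option]
      exact hid g)
    rw [Fintype.prod_option] at h1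
    exact h1
  have h1 := hrel R hR
  have h2 := hrel L hL
  have h3 : Eqv (∏ j, R (H' j)) (∏ j, L (H' j)) := Eqv.prod _ fun j _ => hP _ (hH' j)
  have h4 : Eqv (∏ i, R (H i)) (∏ i, L (H i)) := Eqv.prod _ fun i _ => hP _ (hH i)
  exact Eqv.cancel (Finset.prod_ne_zero_iff.2 fun i _ => hR.1 _) ((h1.trans h3).trans h2.symm) h4

end Pool.Agent.V8H93.KC
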